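import Pool.Agent.Helper14.W3.StA

/-!
# Project W3: module A3T, integration of the relation for the translations by `1/3`
-/

set_option autoImplicit false

open UpperHalfPlane CongruenceSubgroup
open scoped MatrixGroups

namespace Pool.Agent.Helper94.W3

open Pool.Agent.Helper14.CV Pool.Agent.Helper14.W3

private theorem cst (D : ℂ → ℂ) (h : ∀ z : ℂ, 0 < z.im → HasDerivAt D 0 z) :
    ∃ k : ℂ, ∀ z : ℂ, 0 < z.im → D z = k := by
  have hs : IsOpen {z : ℂ | 0 < z.im} := isOpen_lt continuous_const Complex.continuous_im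
  have hp : IsPreconnected {z : ℂ | 0 < z.im} := (convex_halfSpace_im_gt 0).isPreconnected
  obtain ⟨k, hk⟩ := hs.exists_is_const_of_deriv_eq_zero hp
    (fun z hz => (h z hz).differentiableAt.differentiableWithinAt) (fun z hz => (h z hz).deriv)
  exact ⟨k, fun z hz => hk z hz⟩

private theorem comp_der (F g : ℂ → ℂ) (F' g' z : ℂ) (e2 : HasDerivAt F F' (g z))
    (e1 : HasDerivAt g g' z) : HasDerivAt (fun z => F (g z)) (F' * g') z := e2.comp z e1

/-- The translate of the primitive by a real number. -/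
private theorem tr_der {N : ℕ} (hN : NeZero N) (h1 : StA1) (f : CuspForm (G0 N) 2) (t : ℂ)
    (ht : t.im = 0) (z : ℂ) (hz : 0 < z.im) :
    HasDerivAt (fun z => Fp f (z + t)) (2 * Real.pi * Complex.I * fz f (z + t) * 1) z := by
  have k2 : 0 < (z + t : ℂ).im := by
    rw [Complex.add_im, ht, add_zero]
    exact hz
  have e1 : HasDerivAt (fun z : ℂ => z + t) 1 z := (hasDerivAt_id z).add_const _
  exact comp_der (Fp f) (fun z => z + t) _ _ z (h1 N hN f _ k2).2.2 e1

theorem hA3T (h1 : StA1) (h1b : StA1b) : S3A3T := by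
  intro N hN f hf
  have i3 : (1 / 3 : ℂ).im = 0 := by norm_num [Complex.div_im]
  have i23 : (2 / 3 : ℂ).im = 0 := by norm_num [Complex.div_im]
  have key := cst (fun z => Fp f z + Fp f (z + 1 / 3) + Fp f (z + 2 / 3)) (by
    intro z hz
    have a0 := (h1 N hN f z hz).2.2
    have a1 := tr_der hN h1 f (1 / 3) i3 z hz
    have a2 := tr_der hN h1 f (2 / 3) i23 z hz
    refine ((a0.fun_add a1).fun_add a2).congr_deriv ?_
    linear_combination (2 * Real.pi * Complex.I) * hf z hz)
  obtain ⟨k, hk⟩ := key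
  obtain ⟨C, hC⟩ := h1b N hN f
  have hk0 : k = 0 := by
    by_contra hne
    have hpos : 0 < ‖k‖ := norm_pos_iff.2 hne
    have hlim : Filter.Tendsto (fun y : ℝ => 3 * C * Real.exp (-2 * Real.pi * y)) Filter.atTop
        (nhds (3 * C * 0)) := by
      refine Filter.Tendsto.const_mul _ ?_
      refine Real.tendsto_exp_atBot.comp ?_
      have h2 : (-2 * Real.pi) < 0 := by
        have := Real.pi_pos
        linarith
      exact Filter.Tendsto.const_mul_atTop_of_neg h2 Filter.tendsto_id
    rw [mul_zero] at hlim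
    obtain ⟨y, hy1, hy2⟩ := ((hlim.eventually_lt_const hpos).and (Filter.eventually_ge_atTop 1)).exists
    have hz : 0 < ((y : ℂ) * Complex.I).im := by
      simp
      linarith
    have i0 : ((y : ℂ) * Complex.I).im = y := by simp
    have i1 : ((y : ℂ) * Complex.I + 1 / 3).im = y := by rw [Complex.add_im, i3, add_zero, i0]
    have i2 : ((y : ℂ) * Complex.I + 2 / 3).im = y := by rw [Complex.add_im, i23, add_zero, i0]
    have b0 := hC ((y : ℂ) * Complex.I) (by rw [i0]; exact hy2)
    have b1 := hC ((y : ℂ) * Complex.I + 1 / 3) (by rw [i1]; exact hy2)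
    have b2 := hC ((y : ℂ) * Complex.I + 2 / 3) (by rw [i2]; exact hy2)
    rw [i0] at b0
    rw [i1] at b1
    rw [i2] at b2
    have b3 : ‖k‖ ≤ ‖Fp f ((y : ℂ) * Complex.I)‖ + ‖Fp f ((y : ℂ) * Complex.I + 1 / 3)‖ +
        ‖Fp f ((y : ℂ) * Complex.I + 2 / 3)‖ := by
      rw [← hk _ hz]
      exact norm_add₃_le
    linarith
  intro z hz
  have := hk z hz
  rw [hk0] at this
  exact this

end Pool.Agent.Helper94.W3
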